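import Pool.Agent.Y298.LC.Stm

/-!
# Project LC (helper298), job LC-PL: the lifted loop consists of parameter rays
-/

set_option autoImplicit false

open Set Filter Metric MeasureTheory Topology Complex Bornology

namespace Pool.Agent.Y497.LC

open Pool.Agent.Y298.LC
open Pool.Agent.H712R2 (P fc)
open Pool.Agent.H713R2 (IsExteriorMap)
open Pool.Agent.H713R2.AR (green)
open N62a1eb23 (multibrotSet)

theorem norm_ex (σ t : ℝ) : ‖ex σ t‖ = Real.exp σ := by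
  unfold ex
  rw [Complex.norm_exp]
  simp

theorem log_norm_ex (σ t : ℝ) : Real.log ‖ex σ t‖ = σ := by rw [norm_ex, Real.log_exp]

theorem ex_ne (σ t : ℝ) : ex σ t ≠ 0 := Complex.exp_ne_zero _

theorem ex_pow (σ t : ℝ) (N : ℕ) : ex σ t ^ N = ex (N * σ) (N * t) := by
  unfold ex
  rw [← Complex.exp_nat_mul]
  congr 1
  push_cast
  ring

theorem ex_add_int (σ t : ℝ) (n : ℤ) : ex σ (t + n) = ex σ t := by
  unfold ex
  have h : ((σ : ℂ) + 2 * Real.pi * ((t + n : ℝ) : ℂ) * I) =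
      (σ + 2 * Real.pi * t * I) + n * (2 * Real.pi * I) := by
    push_cast
    ring
  rw [h, Complex.exp_add, Complex.exp_int_mul_two_pi_mul_I, mul_one]

theorem continuous_ex : Continuous (fun p : ℝ × ℝ => ex p.1 p.2) := by
  unfold ex
  fun_prop

theorem green_iter {d : ℕ} (hG : ∀ c z, green d c (fc d c z) = d * green d c z) (c z : ℂ)
    (k : ℕ) : green d c ((fc d c)^[k] z) = (d : ℝ) ^ k * green d c z := by
  induction k with
  | zero => simp
  | succ k ih => rw [Function.iterate_succ_apply', hG, ih, pow_succ]; ring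

theorem psi_iter {d : ℕ} (hd : 2 ≤ d) {Ψ : ℂ → ℂ → ℂ} (hB : Bott d Ψ) {c : ℂ}
    (h0 : 0 ≤ green d c 0) {w : ℂ} (hw : w ∈ Dom (green d c 0)) (k : ℕ) :
    w ^ (d ^ k) ∈ Dom (green d c 0) ∧ (fc d c)^[k] (Ψ c w) = Ψ c (w ^ (d ^ k)) := by
  induction k with
  | zero => simpa using hw
  | succ k ih =>
    obtain ⟨h1, h2⟩ := ih
    constructor
    · rw [pow_succ, pow_mul]
      unfold Dom at h1 ⊢
      rw [mem_ofPred_eq] at h1 ⊢
      rw [norm_pow, Real.log_pow]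
      have hd' : (2 : ℝ) ≤ d := by exact_mod_cast hd
      nlinarith
    · rw [Function.iterate_succ_apply', h2, ← hB.conj c _ h1, ← pow_mul, ← pow_succ]

theorem ray_iter {d : ℕ} (hd : 2 ≤ d) {Ψ : ℂ → ℂ → ℂ} {c₀ : ℂ} {r : ℝ} {A : Set ℝ}
    {z : ℝ → ℝ → ℂ → ℂ} (hR : RaySys d Ψ c₀ r A z) (hA : ∀ t ∈ A, (d : ℝ) * t ∈ A)
    {t σ : ℝ} (ht : t ∈ A) (hσ : 0 < σ) {c : ℂ} (hc : c ∈ ball c₀ r) (k : ℕ) :
    (d : ℝ) ^ k * t ∈ A ∧ (fc d c)^[k] (z t σ c) = z ((d : ℝ) ^ k * t) ((d : ℝ) ^ k * σ) c := by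
  induction k with
  | zero => simpa using ht
  | succ k ih =>
    obtain ⟨h1, h2⟩ := ih
    have hd0 : (0 : ℝ) < d := by
      have : 0 < d := by omega
      exact_mod_cast this
    have e1 : (d : ℝ) ^ (k + 1) * t = d * ((d : ℝ) ^ k * t) := by ring
    have e2 : (d : ℝ) ^ (k + 1) * σ = d * ((d : ℝ) ^ k * σ) := by ring
    rw [e1, e2]
    refine ⟨hA _ h1, ?_⟩
    rw [Function.iterate_succ_apply', h2]
    exact hR.conj _ h1 _ (by positivity) c hc

/-- a lift through an injective holomorphic map is continuous -/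
theorem lift_cont {ψ : ℂ → ℂ} {K : Set ℂ} (hψ : IsExteriorMap K ψ) {p w : ℝ → ℂ} {S : Set ℝ}
    (hp : ContinuousOn p S) (hw1 : ∀ τ ∈ S, 1 < ‖w τ‖) (hw2 : ∀ τ ∈ S, ψ (w τ) = p τ) :
    ContinuousOn w S := by
  have hU : IsOpen {z : ℂ | 1 < ‖z‖} := isOpen_lt continuous_const continuous_norm
  intro τ hτ
  have hmem : {z : ℂ | 1 < ‖z‖} ∈ 𝓝 (w τ) := hU.mem_nhds (hw1 τ hτ)
  obtain ⟨ε₀, hε₀, hball⟩ := Metric.mem_nhds_iff.1 hmem
  rw [ContinuousWithinAt, Metric.nhds_basis_ball.tendsto_right_iff]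
  intro ε hε
  obtain ⟨δ, hδ, hδε, hδε₀⟩ : ∃ δ, 0 < δ ∧ δ ≤ ε ∧ δ ≤ ε₀ :=
    ⟨min ε ε₀, lt_min hε hε₀, min_le_left _ _, min_le_right _ _⟩
  have hsub : ball (w τ) δ ⊆ {z : ℂ | 1 < ‖z‖} := (ball_subset_ball hδε₀).trans hball
  have hopen : IsOpen (ψ '' ball (w τ) δ) := by
    have han : AnalyticOnNhd ℂ ψ (ball (w τ) δ) :=
      (hψ.diff.mono hsub).analyticOnNhd isOpen_ball
    rcases han.is_constant_or_isOpen (convex_ball _ _).isPreconnected with h | h
    · exfalso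
      obtain ⟨v, hv⟩ := h
      have h1 : w τ ∈ ball (w τ) δ := mem_ball_self hδ
      have h2 : w τ + (δ / 2 : ℝ) ∈ ball (w τ) δ := by
        rw [mem_ball, dist_eq_norm, add_sub_cancel_left, Complex.norm_real, Real.norm_eq_abs,
          abs_of_pos (by positivity)]
        linarith
      have h3 := hψ.inj (hsub h1) (hsub h2) ((hv _ h1).trans (hv _ h2).symm)
      have h4 : ((δ / 2 : ℝ) : ℂ) = 0 := by
        have := h3.symm
        rwa [add_eq_left] at this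
      have h5 : δ / 2 = 0 := by exact_mod_cast h4
      linarith
    · exact h _ Subset.rfl isOpen_ball
  have h1 : p τ ∈ ψ '' ball (w τ) δ := ⟨w τ, mem_ball_self hδ, hw2 τ hτ⟩
  filter_upwards [(hp τ hτ) (hopen.mem_nhds h1), self_mem_nhdsWithin] with τ' h2 h3
  obtain ⟨v, hv, hv2⟩ := h2
  have h4 : v = w τ' := hψ.inj (hsub hv) (hw1 τ' h3) (hv2.trans (hw2 τ' h3).symm)
  rw [← h4]
  exact ball_subset_ball hδε hv

theorem countable_roots : {z : ℂ | ∃ N : ℕ, 1 ≤ N ∧ z ^ N = 1}.Countable := by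
  have h : {z : ℂ | ∃ N : ℕ, 1 ≤ N ∧ z ^ N = 1} ⊆
      ⋃ N : ℕ, {z : ℂ | z ∈ Polynomial.nthRoots N (1 : ℂ)} := by
    rintro z ⟨N, hN, hz⟩
    rw [mem_iUnion]
    exact ⟨N, (Polynomial.mem_nthRoots (by omega)).2 hz⟩
  refine Countable.mono h (countable_iUnion fun N => ?_)
  classical
  refine (Set.Finite.subset (Polynomial.nthRoots N (1 : ℂ)).toFinset.finite_toSet ?_).countable
  intro z hz
  simpa using hz

/-- the potentials and the angles along the loop -/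
noncomputable def sg (s τ : ℝ) : ℝ := s * min (3 * τ) (min 1 (3 * (1 - τ)))

noncomputable def an (bm bp τ : ℝ) : ℝ := bm + max 0 (min 1 (3 * τ - 1)) * (bp - bm)

theorem sg_left {s τ : ℝ} (h : τ ≤ 1 / 3) : sg s τ = 3 * τ * s := by
  unfold sg
  rw [min_eq_left (show (1 : ℝ) ≤ 3 * (1 - τ) by linarith), min_eq_left (by linarith)]
  ring

theorem sg_mid {s τ : ℝ} (h : 1 / 3 ≤ τ) (h' : τ ≤ 2 / 3) : sg s τ = s := by
  unfold sg
  rw [min_eq_left (show (1 : ℝ) ≤ 3 * (1 - τ) by linarith), min_eq_right (by linarith)]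
  ring

theorem sg_right {s τ : ℝ} (h : 2 / 3 ≤ τ) : sg s τ = 3 * (1 - τ) * s := by
  unfold sg
  rw [min_eq_right (show 3 * (1 - τ) ≤ (1 : ℝ) by linarith), min_eq_right (by linarith)]
  ring

theorem an_left {bm bp τ : ℝ} (h : τ ≤ 1 / 3) : an bm bp τ = bm := by
  unfold an
  rw [min_eq_right (by linarith), max_eq_left (by linarith)]
  ring

theorem an_mid {bm bp τ : ℝ} (h : 1 / 3 ≤ τ) (h' : τ ≤ 2 / 3) :
    an bm bp τ = bm + (3 * τ - 1) * (bp - bm) := by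
  unfold an
  rw [min_eq_right (by linarith), max_eq_right (by linarith)]

theorem an_right {bm bp τ : ℝ} (h : 2 / 3 ≤ τ) : an bm bp τ = bp := by
  unfold an
  rw [min_eq_left (by linarith), max_eq_right (by linarith)]
  ring

theorem pl : S_CG → S_BOT2 → S_PL := by
  intro hCG hBOT d Ψ ψ c₀ r A z γ bm bp s θ tm τ₀ m p hd hB hψ hR hA hbm hbp hs hb hb1 hgs
    hleft hmid hright hend pc pcl hp hτ₀ htm hj hp0
  obtain ⟨-, hG, -, -⟩ := hCG d hd
  obtain ⟨j, hj⟩ := hj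
  have hd0 : (0 : ℝ) < d := by
    have : 0 < d := by omega
    exact_mod_cast this
  have hd1 : (1 : ℝ) < d := by
    have : 1 < d := by omega
    exact_mod_cast this
  -- the potentials and the dynamics
  have key : ∀ τ ∈ Ioo (0 : ℝ) 1, 0 < sg s τ ∧ green d (p τ) (P d (m + 1) (p τ)) = sg s τ ∧
      ∃ K : ℕ, green d (p τ) 0 < (d : ℝ) ^ K * sg s τ ∧
        (fc d (p τ))^[K] (P d (m + 1) (p τ)) =
          Ψ (p τ) (ex ((d : ℝ) ^ K * sg s τ) ((d : ℝ) ^ K * an bm bp τ)) := by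
    intro τ hτ
    have hτI : τ ∈ Icc (0 : ℝ) 1 := ⟨hτ.1.le, hτ.2.le⟩
    obtain ⟨hc, hP⟩ := hp τ hτI
    have ray : ∀ b σ, b ∈ A → 0 < σ → P d (m + 1) (p τ) = z b σ (p τ) →
        green d (p τ) (P d (m + 1) (p τ)) = σ ∧
        ∃ K : ℕ, green d (p τ) 0 < (d : ℝ) ^ K * σ ∧
        (fc d (p τ))^[K] (P d (m + 1) (p τ)) =
          Ψ (p τ) (ex ((d : ℝ) ^ K * σ) ((d : ℝ) ^ K * b)) := by
      intro b σ hbA hσ hPz
      obtain ⟨K, hK⟩ := pow_unbounded_of_one_lt (s / σ) hd1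
      have hK' : s < (d : ℝ) ^ K * σ := by
        rwa [div_lt_iff₀ hσ] at hK
      have hgK : green d (p τ) 0 < (d : ℝ) ^ K * σ := (hgs _ hc).trans hK'
      refine ⟨?_, K, hgK, ?_⟩
      · rw [hPz]
        exact hR.pot b hbA σ hσ _ hc
      · obtain ⟨h1, h2⟩ := ray_iter hd hR hA hbA hσ hc K
        rw [hPz, h2]
        exact hR.high _ h1 _ (by positivity) _ hc hgK
    rcases le_total τ (1 / 3) with h | h
    · have hpos : 0 < 3 * τ * s := by
        have := hτ.1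
        positivity
      rw [sg_left h, an_left h]
      exact ⟨hpos, ray bm _ hbm hpos (hP.trans (hleft _ hc τ ⟨hτ.1, h⟩))⟩
    · rcases le_total τ (2 / 3) with h' | h'
      · rw [sg_mid h h', an_mid h h']
        have e := hP.trans (hmid _ hc τ ⟨h, h'⟩)
        refine ⟨hs, ?_, 0, ?_, ?_⟩
        · rw [e, hB.pot _ _ (show ex s _ ∈ Dom _ by
            unfold Dom
            rw [mem_ofPred_eq, log_norm_ex]
            exact hgs _ hc), log_norm_ex]
        · simpa using hgs _ hc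
        · simpa using e
      · have hpos : 0 < 3 * (1 - τ) * s := by
          have h1 : 0 < 1 - τ := by linarith [hτ.2]
          positivity
        rw [sg_right h', an_right h']
        exact ⟨hpos, ray bp _ hbp hpos (hP.trans (hright _ hc τ ⟨h', hτ.2⟩))⟩
  -- the potential of the critical point
  have gP : ∀ c, green d c (P d (m + 1) c) = (d : ℝ) ^ (m + 1) * green d c 0 := by
    intro c
    exact green_iter hG c 0 (m + 1)
  have hwex : ∀ τ ∈ Ioo (0 : ℝ) 1, ∃ w : ℂ, 1 < ‖w‖ ∧ ψ w = p τ := by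
    intro τ hτ
    obtain ⟨h1, h2, -⟩ := key τ hτ
    have h3 : 0 < green d (p τ) 0 := by
      rw [gP] at h2
      by_contra h4
      have : (d : ℝ) ^ (m + 1) * green d (p τ) 0 ≤ 0 :=
        mul_nonpos_of_nonneg_of_nonpos (by positivity) (not_lt.1 h4)
      linarith
    have h4 : p τ ∈ (multibrotSet d)ᶜ := by
      intro h5
      have := ((hCG d hd).2.2.1 (p τ)).1 h5
      linarith
    rw [← hψ.image] at h4
    obtain ⟨w, hw, hw2⟩ := h4
    exact ⟨w, hw, hw2⟩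
  choose! w hw1 hw2 using hwex
  have hwc : ContinuousOn w (Ioo 0 1) := lift_cont hψ (pc.mono Ioo_subset_Icc_self) hw1 hw2
  -- the equation for the lift
  have hpow : ∀ τ ∈ Ioo (0 : ℝ) 1, ∃ N : ℕ, 1 ≤ N ∧
      w τ ^ N = ex (sg s τ / d ^ m) (θ + (an bm bp τ - tm) / d ^ m) ^ N := by
    intro τ hτ
    obtain ⟨h1, h2, K, h3, h4⟩ := key τ hτ
    obtain ⟨b1, b2⟩ := hBOT d Ψ ψ hd hB hψ (w τ) (hw1 τ hτ)
    rw [hw2 τ hτ] at b1 b2
    have hlog : 0 < Real.log ‖w τ‖ := Real.log_pos (hw1 τ hτ)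
    have hg0 : 0 ≤ green d (p τ) 0 := by
      rw [b1]
      positivity
    have hwD : w τ ∈ Dom (green d (p τ) 0) := by
      unfold Dom
      rw [mem_ofPred_eq, b1, div_lt_iff₀ hd0]
      nlinarith
    obtain ⟨e1, e2⟩ := psi_iter hd hB hg0 hwD (K + m)
    have e3 : (fc d (p τ))^[K + m] (Ψ (p τ) (w τ)) =
        Ψ (p τ) (ex ((d : ℝ) ^ K * sg s τ) ((d : ℝ) ^ K * an bm bp τ)) := by
      rw [b2, Function.iterate_add_apply, Pool.Agent.H712R2.iter_c hd, h4]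
    have e4 : w τ ^ d ^ (K + m) =
        ex ((d : ℝ) ^ K * sg s τ) ((d : ℝ) ^ K * an bm bp τ) := by
      refine hB.inj (p τ) e1 ?_ (e2.symm.trans e3)
      unfold Dom
      rw [mem_ofPred_eq, log_norm_ex]
      exact h3
    refine ⟨d ^ (K + m), Nat.one_le_iff_ne_zero.2 (pow_ne_zero _ (by omega)), ?_⟩
    rw [e4, ex_pow]
    have hdm : (d : ℝ) ^ m ≠ 0 := by positivity
    have e5 : ((d ^ (K + m) : ℕ) : ℝ) * (sg s τ / d ^ m) = (d : ℝ) ^ K * sg s τ := by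
      push_cast
      rw [pow_add]
      field_simp
    have e6 : ((d ^ (K + m) : ℕ) : ℝ) * (θ + (an bm bp τ - tm) / d ^ m) =
        (d : ℝ) ^ K * an bm bp τ + (((d : ℤ) ^ K * j : ℤ) : ℝ) := by
      push_cast
      rw [pow_add]
      have : (d : ℝ) ^ K * (d : ℝ) ^ m * (θ + (an bm bp τ - tm) / (d : ℝ) ^ m) =
          (d : ℝ) ^ K * ((d : ℝ) ^ m * θ + (an bm bp τ - tm)) := by
        field_simp
      rw [this, hj]
      ring
    rw [e5, e6, ex_add_int]
  -- the quotient is constant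
  obtain ⟨E, hE⟩ : ∃ E : ℝ → ℂ, E = fun τ =>
      ex (sg s τ / d ^ m) (θ + (an bm bp τ - tm) / d ^ m) := ⟨_, rfl⟩
  have hEne : ∀ τ, E τ ≠ 0 := by
    intro τ
    rw [hE]
    exact ex_ne _ _
  have hEc : Continuous E := by
    rw [hE]
    have h1 : Continuous (fun τ : ℝ => (sg s τ / (d : ℝ) ^ m,
        θ + (an bm bp τ - tm) / (d : ℝ) ^ m)) := by
      unfold sg an
      fun_prop
    exact continuous_ex.comp h1
  have hEτ₀ : E τ₀ = ex (s / d ^ m) θ := by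
    rw [hE]
    simp only
    rw [sg_mid hτ₀.1.le hτ₀.2.le, an_mid hτ₀.1.le hτ₀.2.le, ← htm, sub_self, zero_div, add_zero]
  have hτ₀' : τ₀ ∈ Ioo (0 : ℝ) 1 := ⟨by linarith [hτ₀.1], by linarith [hτ₀.2]⟩
  have hwτ₀ : w τ₀ = E τ₀ := by
    rw [hEτ₀]
    refine hψ.inj (hw1 τ₀ hτ₀') ?_ ((hw2 τ₀ hτ₀').trans hp0)
    rw [mem_ofPred_eq, norm_ex]
    exact Real.one_lt_exp_iff.2 (by positivity)
  have main : ∀ τ ∈ Ioo (0 : ℝ) 1, p τ = ψ (E τ) := by
    have hc : ContinuousOn (fun τ => w τ / E τ) (Ioo 0 1) :=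
      hwc.div hEc.continuousOn (fun τ _ => hEne τ)
    have hpre : IsPreconnected ((fun τ => w τ / E τ) '' Ioo 0 1) := isPreconnected_Ioo.image _ hc
    have hsub : (fun τ => w τ / E τ) '' Ioo 0 1 ⊆ {z : ℂ | ∃ N : ℕ, 1 ≤ N ∧ z ^ N = 1} := by
      rintro _ ⟨τ, hτ, rfl⟩
      obtain ⟨N, hN, hN2⟩ := hpow τ hτ
      refine ⟨N, hN, ?_⟩
      simp only
      rw [div_pow, hN2, hE]
      exact div_self (pow_ne_zero _ (ex_ne _ _))
    have hss := countable_roots.isTotallyDisconnected _ hsub hpre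
    intro τ hτ
    have h1 : w τ / E τ = w τ₀ / E τ₀ := hss ⟨τ, hτ, rfl⟩ ⟨τ₀, hτ₀', rfl⟩
    rw [hwτ₀, div_self (hEne _), div_eq_one_iff_eq (hEne _)] at h1
    rw [← h1, hw2 τ hτ]
  -- the end points
  have hp00 : p 0 ∉ ψ '' Dom 0 := by
    rintro ⟨v, hv, hv2⟩
    have hv' : 0 < Real.log ‖v‖ := hv
    have hv1 : 1 < ‖v‖ := by
      by_contra h
      have := Real.log_nonpos (norm_nonneg v) (not_lt.1 h)
      linarith
    obtain ⟨b1, -⟩ := hBOT d Ψ ψ hd hB hψ v hv1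
    obtain ⟨hc, hP⟩ := hp 0 ⟨le_rfl, zero_le_one⟩
    have h1 := gP (p 0)
    rw [hP, hend _ hc] at h1
    rw [hv2] at b1
    rw [b1] at h1
    have : 0 < (d : ℝ) ^ (m + 1) * (Real.log ‖v‖ / d) := by positivity
    linarith
  have hdm : (0 : ℝ) < (d : ℝ) ^ m := by positivity
  have hsm : 0 < s / (d : ℝ) ^ m := by positivity
  refine ⟨pc, pcl, le_rfl, hsm, ?_, ?_, ?_, ?_, ?_, ?_, ?_⟩
  · have : (bm - tm) / (d : ℝ) ^ m < (bp - tm) / (d : ℝ) ^ m :=
      div_lt_div_of_pos_right (by linarith) hdm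
    linarith
  · have h1 : (bp - tm) / (d : ℝ) ^ m = (bm - tm) / (d : ℝ) ^ m + (bp - bm) / (d : ℝ) ^ m := by
      rw [← add_div]
      congr 1
      ring
    have h2 : (bp - bm) / (d : ℝ) ^ m < 1 := by
      rw [div_lt_one hdm]
      have : (1 : ℝ) ≤ (d : ℝ) ^ m := one_le_pow₀ hd1.le
      linarith
    linarith
  · intro τ hτ hpos
    have hτ0 : 0 < τ := by
      by_contra h
      have : 3 * τ * (s / (d : ℝ) ^ m) ≤ 0 :=
        mul_nonpos_of_nonpos_of_nonneg (by linarith) hsm.le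
      linarith
    rw [main τ ⟨hτ0, by linarith [hτ.2]⟩, hE]
    simp only
    rw [sg_left hτ.2, an_left hτ.2, mul_div_assoc]
  · intro τ hτ
    rw [main τ ⟨by linarith [hτ.1], by linarith [hτ.2]⟩, hE]
    simp only
    rw [sg_mid hτ.1 hτ.2, an_mid hτ.1 hτ.2]
    congr 2
    ring
  · intro τ hτ hpos
    have hτ1 : τ < 1 := by
      by_contra h
      have : 3 * (1 - τ) * (s / (d : ℝ) ^ m) ≤ 0 :=
        mul_nonpos_of_nonpos_of_nonneg (by linarith) hsm.le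
      linarith
    rw [main τ ⟨by linarith [hτ.1], hτ1⟩, hE]
    simp only
    rw [sg_right hτ.1, an_right hτ.1, mul_div_assoc]
  · intro τ hτ hneg
    have hτ0 : τ = 0 := by
      by_contra h
      have h1 : 0 < τ := lt_of_le_of_ne hτ.1 (Ne.symm h)
      have : 0 < 3 * τ * (s / (d : ℝ) ^ m) := by positivity
      linarith
    rw [hτ0]
    exact hp00
  · intro τ hτ hneg
    have hτ1 : τ = 1 := by
      by_contra h
      have h1 : 0 < 1 - τ := by
        have := lt_of_le_of_ne hτ.2 h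
        linarith
      have : 0 < 3 * (1 - τ) * (s / (d : ℝ) ^ m) := by positivity
      linarith
    rw [hτ1, ← pcl]
    exact hp00

end Pool.Agent.Y497.LC
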